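import Pool.Agent.H78.Rigid

namespace Pool.Agent.Results.MP_92f261_al.Rigid

open Pool.Agent.H78.Rigid CategoryTheory Abelian

/-- Over every field there is a local symmetric (hence selfinjective) finite-dimensional algebra
with a finitely generated nonprojective right module without self-extensions. -/
theorem result (k : Type) [Field k] : ∃ (A : Type) (_ : Ring A) (_ : Algebra k A),
    Module.Finite k A ∧ IsLocalRing A ∧ IsSymmetric k A ∧ Module.Injective Aᵐᵒᵖ A ∧
    ∃ M : ModuleCat.{0} Aᵐᵒᵖ, Module.Finite Aᵐᵒᵖ M ∧ ¬ Module.Projective Aᵐᵒᵖ M ∧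
      Subsingleton (Ext M M 1) :=
  main k

end Pool.Agent.Results.MP_92f261_al.Rigid
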